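import Pool.Agent.Run7.h568.DG.CIface

/-!
# Dense Thurston geodesics: the piece `C_bd` (uniform bound of the new tails)
-/

open Real Matrix Filter Topology

noncomputable section

namespace Run7.h99.DG.Bd

open Run7.h568.DG

variable {D : Type} [Fintype D] [DecidableEq D]

/-- nonnegative entries -/
def NN (g : SL) : Prop := ∀ i j, 0 ≤ g.1 i j

theorem mul_entry (g h : SL) (i j : Fin 2) :
    (g * h).1 i j = g.1 i 0 * h.1 0 j + g.1 i 1 * h.1 1 j := by
  show (g.1 * h.1) i j = _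
  rw [Matrix.mul_apply, Fin.sum_univ_two]

theorem NN.mul {g h : SL} (hg : NN g) (hh : NN h) : NN (g * h) := by
  intro i j
  rw [mul_entry]
  exact add_nonneg (mul_nonneg (hg _ _) (hh _ _)) (mul_nonneg (hg _ _) (hh _ _))

theorem NN.one : NN (1 : SL) := by
  intro i j
  fin_cases i <;> fin_cases j <;> simp

theorem NN.pow {g : SL} (hg : NN g) (n : ℕ) : NN (g ^ n) := by
  induction n with
  | zero => rw [pow_zero]; exact NN.one
  | succ n ih => rw [pow_succ]; exact ih.mul hg

theorem NN.zpow {g : SL} (hg : NN g) {n : ℤ} (hn : 0 ≤ n) : NN (g ^ n) := by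
  obtain ⟨k, rfl⟩ := Int.eq_ofNat_of_zero_le hn
  rw [zpow_natCast]
  exact hg.pow k

variable {T : Tri D} (P : Portal T)

theorem itin_succ (c : D → ℕ) (a n : ℕ) : ∀ w : D × ℕ,
    P.itin c a (n + 1) w = P.itin c a n w ++ P.sletters c a ((P.snext c a)^[n] w) := by
  induction n with
  | zero => intro w; simp [Portal.itin]
  | succ n ih =>
      intro w
      have h1 : P.itin c a (n + 1 + 1) w =
        P.sletters c a w ++ P.itin c a (n + 1) (P.snext c a w) := rfl
      have h2 : P.itin c a (n + 1) w = P.sletters c a w ++ P.itin c a n (P.snext c a w) := rfl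
      rw [h1, ih, h2, List.append_assoc, Function.iterate_succ_apply]

theorem hol_append (p : (D → ℝ) × ℝ) (w1 w2 : List Letter) : ∀ d,
    P.hol p (w1 ++ w2) d = P.hol p w1 d * P.hol p w2 (P.endp w1 d) := by
  induction w1 with
  | nil => intro d; simp [Portal.hol, Portal.endp]
  | cons l w1 ih =>
      intro d
      simp only [List.cons_append, Portal.hol, Portal.endp]
      rw [ih, mul_assoc]

theorem valid_append (w1 w2 : List Letter) : ∀ d, P.Valid (w1 ++ w2) d → P.Valid w1 d := by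
  induction w1 with
  | nil => intro d _; trivial
  | cons l w1 ih =>
      intro d h
      exact ⟨h.1, ih _ h.2⟩

theorem mat_cf (p : (D → ℝ) × ℝ) (d : D) : P.mat p d (Letter.cf 0) = P.J p := by
  simp [Portal.mat]

/-- the word of a strand crossing `α` ends with `cf 0` -/
theorem itin_end (hcomb : C_comb) (c : D → ℕ) (a Q : ℕ) (hM : P.Match c a) (hQ : 0 < Q) (k : ℕ)
    (hk : k < a) (hper : (P.snext c a)^[Q] (P.v, k) = (P.v, k)) :
    ∃ W' : List Letter, P.itin c a Q (P.v, k) = W' ++ [Letter.cf 0] := by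
  obtain ⟨n, rfl⟩ : ∃ n, Q = n + 1 := ⟨Q - 1, by omega⟩
  have hk0 : k < T.num c P.v := by
    have := hM.2.2
    omega
  have hb : ∀ n, ((P.snext c a)^[n] (P.v, k)).2 < T.num c ((P.snext c a)^[n] (P.v, k)).1 := by
    intro n
    induction n with
    | zero => exact hk0
    | succ n ih =>
        rw [Function.iterate_succ_apply']
        exact (hcomb T P c a hM _ ih).2.2.2.2.2
  set w' := (P.snext c a)^[n] (P.v, k) with hw'
  have h1 : P.snext c a w' = (P.v, k) := by
    have h0 : P.snext c a w' = (P.snext c a)^[n + 1] (P.v, k) :=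
      (Function.iterate_succ_apply' _ _ _).symm
    rw [h0, hper]
  have h2 := hcomb T P c a hM w' (hb n)
  have h3 := hcomb T P c a hM _ h2.1
  have h4 : Portal.out (T := T) c w' = P.cross c a (P.v, k) := by
    have h5 : P.cross c a (P.cross c a (Portal.out (T := T) c w')) = Portal.out (T := T) c w' :=
      h3.2.2.2.2.1
    rw [← h5]
    have h6 : P.cross c a (Portal.out (T := T) c w') = P.snext c a w' := rfl
    rw [h6, h1]
  have h7 : P.cross c a (P.v, k) = (T.io P.u, T.num c (T.io P.u) - 1 - k) := by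
    unfold Portal.cross
    simp [P.hne, hk]
  have h8 := hM.2.1
  have h9 : P.sletters c a w' = [Letter.turn (Tri.sbit c w')] ++ [Letter.cf 0] := by
    unfold Portal.sletters
    rw [h4, h7]
    simp only
    rw [if_pos ⟨trivial, by omega⟩]
    rfl
  refine ⟨P.itin c a n (P.v, k) ++ [Letter.turn (Tri.sbit c w')], ?_⟩
  rw [itin_succ, h9, List.append_assoc]

variable {P}

theorem Zpos (hcomb : C_comb) (htr : C_tr) (hpos : C_pos) (t : PTD P) {p : (D → ℝ) × ℝ}
    (hp : p ∈ P.Teich) {k : ℕ} (hk : k < t.a) :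
    ∀ i j, 0 < (P.J p * t.str p (P.v, k) * (P.J p)⁻¹).1 i j := by
  have hk0 : k < T.num t.c P.v := by
    have := t.hc.2.2
    omega
  obtain ⟨W', hW⟩ := itin_end P hcomb t.c t.a t.Q t.hc t.hQ k hk (t.per _ _ hk0)
  obtain ⟨hv, he, ⟨l, hl, hlT⟩, -, -⟩ := hpos T P t p hp P.v k hk0
  have h1 : t.str p (P.v, k) = P.hol p W' P.v * P.J p := by
    show P.hol p (P.itin t.c t.a t.Q (P.v, k)) P.v = _
    rw [hW, hol_append]
    simp only [Portal.hol, mul_one]
    rw [mat_cf]
  have h2 : P.J p * t.str p (P.v, k) * (P.J p)⁻¹ = P.hol p (Letter.cf 0 :: W') P.u := by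
    rw [h1]
    show _ = P.mat p P.u (Letter.cf 0) * P.hol p W' (P.nxt P.u (Letter.cf 0))
    rw [mat_cf]
    show _ = P.J p * P.hol p W' P.v
    group
  rw [h2]
  refine (htr T P p hp _ _ ?_ ?_ ?_).1
  · refine ⟨rfl, ?_⟩
    rw [hW] at hv
    exact valid_append P W' _ _ hv
  · refine ⟨l, ?_, hlT⟩
    rw [hW] at hl
    rcases List.mem_append.1 hl with h | h
    · exact List.mem_cons_of_mem _ h
    · rw [List.mem_singleton.1 h] at hlT
      exact absurd hlT (by simp [Letter.isT])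
  · exact ⟨Letter.cf 0, List.mem_cons_self .., trivial⟩

theorem Pd_succ (t : PTD P) (p : (D → ℝ) × ℝ) (d : D) (n : ℕ) :
    t.Pd p d (n + 1) = t.Pd p d n * t.str p (d, n) ^ t.m (d, n) := by
  unfold PTD.Pd
  rw [List.range_succ, List.map_append, List.prod_append]
  simp

theorem conjPd (hcomb : C_comb) (htr : C_tr) (hpos : C_pos) (t : PTD P) {p : (D → ℝ) × ℝ}
    (hp : p ∈ P.Teich) (hm : ∀ w, 0 ≤ t.m w) (n : ℕ) (hn : n ≤ t.a) :
    NN (P.J p * t.Pd p P.v n * (P.J p)⁻¹) := by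
  induction n with
  | zero =>
      have : P.J p * t.Pd p P.v 0 * (P.J p)⁻¹ = 1 := by
        simp [PTD.Pd]
      rw [this]
      exact NN.one
  | succ n ih =>
      have h1 : P.J p * t.Pd p P.v (n + 1) * (P.J p)⁻¹ =
          (P.J p * t.Pd p P.v n * (P.J p)⁻¹) *
            (P.J p * t.str p (P.v, n) * (P.J p)⁻¹) ^ t.m (P.v, n) := by
        rw [Pd_succ, conj_zpow]
        group
      rw [h1]
      exact (ih (by omega)).mul (NN.zpow (fun i j => (Zpos hcomb htr hpos t hp (by omega) i j).le)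
        (hm _))

theorem mob_le {g : SL} {s : ℝ} (hs : 0 ≤ s) (h0 : 0 < g.1 0 0) (h1 : 0 ≤ g.1 1 0) :
    PTD.mob g s ≤ s / (g.1 0 0 * g.1 0 0) := by
  unfold PTD.mob
  refine div_le_div_of_nonneg_left hs (by positivity) ?_
  refine mul_le_mul_of_nonneg_left ?_ h0.le
  have := mul_nonneg h1 hs
  linarith

theorem C_bd_of (hJ : C_J) (hcomb : C_comb) (htr : C_tr) (hpos : C_pos) (he : C_eig) : C_bd := by
  intro D _ _ T P p hp c a Q
  -- the bound for `xiu`
  set Z : SL := P.J p * P.hol p (P.itin c a Q (P.v, a - 1)) P.v * (P.J p)⁻¹ with hZ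
  set R : ℝ := max (Z.1 0 1 / Z.1 0 0) (Z.1 1 1 / Z.1 1 0) with hR
  have hxiu : ∀ t : PTD P, t.c = c → t.a = a → t.Q = Q → (∀ w, 0 ≤ t.m w) →
      (∀ k < a, 0 < t.m (P.v, k)) → t.xiu p ≤ R := by
    intro t hc ha hQ hm hm'
    subst hc ha hQ
    have hapos := t.ha
    have hZe : Z = P.J p * t.str p (P.v, t.a - 1) * (P.J p)⁻¹ := rfl
    have hZp : ∀ i j, 0 < Z.1 i j := by
      rw [hZe]
      exact Zpos hcomb htr hpos t hp (by omega)
    have hB : t.B p = t.Pd p P.v (t.a - 1) * t.str p (P.v, t.a - 1) ^ t.m (P.v, t.a - 1) := by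
      have h1 : t.B p = t.Pd p P.v (t.a - 1 + 1) := by
        rw [Nat.sub_add_cancel hapos]; rfl
      rw [h1, Pd_succ]
    set N : SL := Portal.rot (T := T) p.1 P.u * ((P.J p * t.Pd p P.v (t.a - 1) * (P.J p)⁻¹) *
      Z ^ (t.m (P.v, t.a - 1) - 1)) with hN
    have hMp : t.Mp p = N * Z := by
      unfold PTD.Mp
      rw [hN, hB]
      have h1 : Z ^ (t.m (P.v, t.a - 1) - 1) * Z = Z ^ t.m (P.v, t.a - 1) := by
        rw [← _root_.zpow_add_one, sub_add_cancel]
      have h2 : P.J p * t.str p (P.v, t.a - 1) ^ t.m (P.v, t.a - 1) * (P.J p)⁻¹ =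
          Z ^ t.m (P.v, t.a - 1) := by rw [hZe, conj_zpow]
      calc Portal.rot (T := T) p.1 P.u * (P.J p * (t.Pd p P.v (t.a - 1) *
            t.str p (P.v, t.a - 1) ^ t.m (P.v, t.a - 1)) * (P.J p)⁻¹)
          = Portal.rot (T := T) p.1 P.u * ((P.J p * t.Pd p P.v (t.a - 1) * (P.J p)⁻¹) *
            (P.J p * t.str p (P.v, t.a - 1) ^ t.m (P.v, t.a - 1) * (P.J p)⁻¹)) := by group
        _ = Portal.rot (T := T) p.1 P.u * ((P.J p * t.Pd p P.v (t.a - 1) * (P.J p)⁻¹) *
            (Z ^ (t.m (P.v, t.a - 1) - 1) * Z)) := by rw [h2, h1]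
        _ = _ := by simp only [mul_assoc]
    have hrot : NN (Portal.rot (T := T) p.1 P.u) := by
      have h1 := (hJ T P p hp).1 P.u (Function.minimalPeriod T.rho P.u)
      intro i j
      fin_cases i <;> fin_cases j
      · exact h1.2.1.le
      · exact h1.1.symm.le
      · exact h1.2.2.2.1
      · exact h1.2.2.1.le
    have hNN : NN N := hrot.mul ((conjPd hcomb htr hpos t hp hm _ (by omega)).mul
      (NN.zpow (fun i j => (hZp i j).le) (by have := hm' (t.a - 1) (by omega); omega)))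
    have hdet : N.1 0 0 * N.1 1 1 - N.1 0 1 * N.1 1 0 = 1 := by
      have := N.2
      rwa [Matrix.det_fin_two] at this
    have hrow : 0 < N.1 1 0 ∨ 0 < N.1 1 1 := by
      by_contra hcon
      push Not at hcon
      have e1 : N.1 1 0 = 0 := le_antisymm hcon.1 (hNN 1 0)
      have e2 : N.1 1 1 = 0 := le_antisymm hcon.2 (hNN 1 1)
      rw [e1, e2] at hdet
      norm_num at hdet
    have h10 : (t.Mp p).1 1 0 = N.1 1 0 * Z.1 0 0 + N.1 1 1 * Z.1 1 0 := by
      rw [hMp, mul_entry]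
    have h11 : (t.Mp p).1 1 1 = N.1 1 0 * Z.1 0 1 + N.1 1 1 * Z.1 1 1 := by
      rw [hMp, mul_entry]
    have hpos10 : 0 < (t.Mp p).1 1 0 := by
      rw [h10]
      rcases hrow with h | h
      · exact add_pos_of_pos_of_nonneg (mul_pos h (hZp 0 0)) (mul_nonneg (hNN 1 1) (hZp 1 0).le)
      · exact add_pos_of_nonneg_of_pos (mul_nonneg (hNN 1 0) (hZp 0 0).le) (mul_pos h (hZp 1 0))
    have hle : (t.Mp p).1 1 1 ≤ R * (t.Mp p).1 1 0 := by
      have g1 : Z.1 0 1 ≤ R * Z.1 0 0 := by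
        rw [← div_le_iff₀ (hZp 0 0)]; exact le_max_left _ _
      have g2 : Z.1 1 1 ≤ R * Z.1 1 0 := by
        rw [← div_le_iff₀ (hZp 1 0)]; exact le_max_right _ _
      rw [h10, h11]
      have g3 := mul_le_mul_of_nonneg_left g1 (hNN 1 0)
      have g4 := mul_le_mul_of_nonneg_left g2 (hNN 1 1)
      calc N.1 1 0 * Z.1 0 1 + N.1 1 1 * Z.1 1 1
          ≤ N.1 1 0 * (R * Z.1 0 0) + N.1 1 1 * (R * Z.1 1 0) := add_le_add g3 g4
        _ = _ := by ring
    have hE := he T P t p hp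
    have hact := hE.2.2.2.2.2.2.2.2.2.1.2
    rw [hE.2.2.2.1] at hact
    have hkap : 0 < (t.kap p)⁻¹ := inv_pos.2 (lt_trans one_pos hE.2.1)
    have h5 : t.xiu p * (t.Mp p).1 1 0 ≤ R * (t.Mp p).1 1 0 := by linarith
    exact le_of_mul_le_mul_right h5 hpos10
  have hxiv : ∀ t : PTD P, t.c = c → t.a = a → t.Q = Q → (∀ w, 0 ≤ t.m w) →
      (∀ k < a, 0 < t.m (P.v, k)) → t.xiv p ≤
        R / ((Portal.rot (T := T) p.1 P.u * P.J p).1 0 0 *
          (Portal.rot (T := T) p.1 P.u * P.J p).1 0 0) := by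
    intro t hc ha hQ hm hm'
    have h1 := hxiu t hc ha hQ hm hm'
    have hE := he T P t p hp
    have h0 : 0 ≤ t.xiu p := by
      rw [← hE.2.2.2.1]
      exact hE.2.2.2.2.2.2.1 hm _
    have h5 := (hJ T P p hp).2.2.2.2 1
    simp only [zpow_one] at h5
    have h6 : 0 < (Portal.rot (T := T) p.1 P.u * P.J p).1 0 0 := by
      rw [h5]
      simp only [Matrix.of_apply, Matrix.cons_val', Matrix.cons_val_zero,
        Matrix.cons_val_fin_one]
      exact exp_pos _
    have h7 : 0 ≤ (Portal.rot (T := T) p.1 P.u * P.J p).1 1 0 := by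
      rw [mul_entry]
      have g1 := (hJ T P p hp).1 P.u (Function.minimalPeriod T.rho P.u)
      have g2 : 0 < (P.J p).1 0 0 := by
        show 0 < exp (p.2 / 2)
        exact exp_pos _
      exact add_nonneg (mul_nonneg g1.2.2.2.1 g2.le)
        (mul_nonneg g1.2.2.1.le (hJ T P p hp).2.2.2.1.le)
    refine (mob_le h0 h6 h7).trans ?_
    exact div_le_div_of_nonneg_right h1 (by positivity)
  have hall : ∀ d : D, ∃ C : ℝ, ∀ t : PTD P, t.c = c → t.a = a → t.Q = Q → (∀ w, 0 ≤ t.m w) →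
      (∀ k < a, 0 < t.m (P.v, k)) → t.xi p d ≤ C := by
    intro d
    unfold PTD.xi
    by_cases h1 : ∃ j, T.rho^[j] P.u = d
    · simp only [dif_pos h1]
      set g := Portal.turns (T := T) p.1 P.u (Nat.find h1) with hg
      have h2 := (hJ T P p hp).1 P.u (Nat.find h1)
      refine ⟨R / (g.1 0 0 * g.1 0 0), fun t hc ha hQ hm hm' => ?_⟩
      have hE := he T P t p hp
      have h0 : 0 ≤ t.xiu p := by
        rw [← hE.2.2.2.1]
        exact hE.2.2.2.2.2.2.1 hm _
      refine (mob_le h0 h2.2.1 h2.2.2.2.1).trans ?_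
      exact div_le_div_of_nonneg_right (hxiu t hc ha hQ hm hm')
        (mul_pos h2.2.1 h2.2.1).le
    · simp only [dif_neg h1]
      by_cases h2 : ∃ j, T.rho^[j] P.v = d
      · simp only [dif_pos h2]
        set g := Portal.turns (T := T) p.1 P.v (Nat.find h2) with hg
        have h3 := (hJ T P p hp).1 P.v (Nat.find h2)
        refine ⟨R / ((Portal.rot (T := T) p.1 P.u * P.J p).1 0 0 *
          (Portal.rot (T := T) p.1 P.u * P.J p).1 0 0) / (g.1 0 0 * g.1 0 0),
          fun t hc ha hQ hm hm' => ?_⟩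
        have hE := he T P t p hp
        have h0 : 0 ≤ t.xiv p := by
          rw [← hE.2.2.2.2.1]
          exact hE.2.2.2.2.2.2.1 hm _
        refine (mob_le h0 h3.2.1 h3.2.2.2.1).trans ?_
        exact div_le_div_of_nonneg_right (hxiv t hc ha hQ hm hm')
          (mul_pos h3.2.1 h3.2.1).le
      · simp only [dif_neg h2]
        exact ⟨0, fun t _ _ _ _ _ => le_refl _⟩
  choose C hC using hall
  refine ⟨∑ d, |C d|, fun t hc ha hQ hm hm' d => ?_⟩
  refine (hC d t hc ha hQ hm hm').trans ((le_abs_self _).trans ?_)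
  exact Finset.single_le_sum (f := fun d => |C d|) (fun _ _ => abs_nonneg _) (Finset.mem_univ d)

end Run7.h99.DG.Bd
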