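import Pool.Agent.Run7.h568.DG.CIface

/-!
# Dense Thurston geodesics: the piece `C_twc` (continuity of the twist)
-/

open Real Matrix Filter Topology

noncomputable section

namespace Run7.h99.DG

open Run7.h568.DG

variable {D : Type} [Fintype D] [DecidableEq D]

theorem cont_SL {X : Type} [TopologicalSpace X] {f : X → SL}
    (h : ∀ i j, Continuous fun x => (f x).1 i j) : Continuous f :=
  continuous_induced_rng.2 (continuous_matrix h)

theorem cont_entry {X : Type} [TopologicalSpace X] {f : X → SL} (h : Continuous f) (i j : Fin 2) :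
    Continuous fun x => (f x).1 i j :=
  (continuous_subtype_val.comp h).matrix_elem i j

theorem cont_Del {X : Type} [TopologicalSpace X] {s : X → ℝ} (h : Continuous s) :
    Continuous fun x => Del (s x) := by
  refine cont_SL fun i j => ?_
  fin_cases i <;> fin_cases j <;> simp [Del] <;> fun_prop

theorem cont_E {X : Type} [TopologicalSpace X] {s : X → ℝ} (h : Continuous s) :
    Continuous fun x => E (s x) := by
  refine cont_SL fun i j => ?_
  fin_cases i <;> fin_cases j <;> simp [E] <;> fun_prop

theorem cont_step {X : Type} [TopologicalSpace X] {s : X → ℝ} (b : Bool) (h : Continuous s) :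
    Continuous fun x => step b (s x) :=
  continuous_const.mul (cont_Del h)

theorem cont_hol {X : Type} [TopologicalSpace X] (T : Tri D) {x : X → D → ℝ} (h : Continuous x)
    (w : List Bool) : ∀ d, Continuous fun a => T.hol (x a) w d := by
  induction w with
  | nil => intro d; exact continuous_const
  | cons b w ih =>
      intro d
      exact (cont_step b ((continuous_apply _).comp h)).mul (ih _)

theorem cont_rot {X : Type} [TopologicalSpace X] (T : Tri D) {x : X → D → ℝ} (h : Continuous x)
    (d : D) : Continuous fun a => Portal.rot (T := T) (x a) d :=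
  cont_hol T h _ d

theorem cont_cyc {X : Type} [TopologicalSpace X] (T : Tri D) {x : X → D → ℝ} (h : Continuous x)
    (d : D) : Continuous fun a => T.cyc (x a) d :=
  continuous_finsetSum _ fun _ _ => (continuous_apply _).comp h

variable {T : Tri D} (P : Portal T)

theorem cont_fst : Continuous fun p : P.Teich => (p : (D → ℝ) × ℝ).1 :=
  continuous_fst.comp continuous_subtype_val

theorem cont_snd : Continuous fun p : P.Teich => (p : (D → ℝ) × ℝ).2 :=
  continuous_snd.comp continuous_subtype_val

theorem cont_J : Continuous fun p : P.Teich => P.J (p : (D → ℝ) × ℝ) := by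
  have h1 := cont_snd P
  have h2 := cont_entry (cont_rot T (cont_fst P) P.u) 1 0
  have h3 := cont_entry (cont_rot T (cont_fst P) P.v) 1 0
  have h4 := cont_cyc T (cont_fst P) P.v
  have h5 : ∀ p : P.Teich, 2 * sinh (T.cyc (p : (D → ℝ) × ℝ).1 P.v / 2) ≠ 0 := by
    intro p
    have := p.2.2.1
    have h6 : 0 < sinh (T.cyc (p : (D → ℝ) × ℝ).1 P.v / 2) :=
      Real.sinh_pos_iff.2 (by linarith)
    positivity
  refine cont_SL fun i j => ?_
  fin_cases i <;> fin_cases j
  · show Continuous fun p : P.Teich => exp ((p : (D → ℝ) × ℝ).2 / 2)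
    fun_prop
  · show Continuous fun p : P.Teich => (0 : ℝ)
    fun_prop
  · show Continuous fun p : P.Teich =>
      ((Portal.rot (T := T) (p : (D → ℝ) × ℝ).1 P.u).1 1 0 * exp ((p : (D → ℝ) × ℝ).2 / 2) +
        (Portal.rot (T := T) (p : (D → ℝ) × ℝ).1 P.v).1 1 0 * exp (-(p : (D → ℝ) × ℝ).2 / 2)) /
        (2 * sinh (T.cyc (p : (D → ℝ) × ℝ).1 P.v / 2))
    refine Continuous.div ?_ ?_ h5
    · exact (h2.mul (Real.continuous_exp.comp (h1.div_const 2))).add
        (h3.mul (Real.continuous_exp.comp (h1.neg.div_const 2)))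
    · exact continuous_const.mul (Real.continuous_sinh.comp (h4.div_const 2))
  · show Continuous fun p : P.Teich => exp (-(p : (D → ℝ) × ℝ).2 / 2)
    fun_prop

theorem cont_mat (d : D) (l : Letter) :
    Continuous fun p : P.Teich => P.mat (p : (D → ℝ) × ℝ) d l := by
  have hx : ∀ e : D, Continuous fun p : P.Teich => (p : (D → ℝ) × ℝ).1 e := fun e =>
    (continuous_apply e).comp (cont_fst P)
  cases l with
  | turn b => exact cont_step b (hx _)
  | cf n => exact ((cont_rot T (cont_fst P) P.u).zpow n).mul (cont_J P)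
  | ct n =>
      exact ((cont_E (hx _)).mul ((((cont_rot T (cont_fst P) P.u).zpow n).mul (cont_J P)).inv)).mul
        (cont_E (hx _)).inv

theorem cont_phol (w : List Letter) : ∀ d,
    Continuous fun p : P.Teich => P.hol (p : (D → ℝ) × ℝ) w d := by
  induction w with
  | nil => intro d; exact continuous_const
  | cons l w ih => intro d; exact (cont_mat P d l).mul (ih _)

variable {P} (t : PTD P)

theorem cont_str (w : D × ℕ) : Continuous fun p : P.Teich => t.str (p : (D → ℝ) × ℝ) w :=
  cont_phol P _ _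

theorem cont_Pd (d : D) (n : ℕ) :
    Continuous fun p : P.Teich => t.Pd (p : (D → ℝ) × ℝ) d n := by
  unfold PTD.Pd
  exact continuous_list_prod _ fun i _ => (cont_str t (d, i)).zpow _

theorem cont_H (d : D) : Continuous fun p : P.Teich => t.H (p : (D → ℝ) × ℝ) d :=
  cont_Pd t d _

theorem cont_B : Continuous fun p : P.Teich => t.B (p : (D → ℝ) × ℝ) := cont_Pd t _ _

theorem cont_Mp : Continuous fun p : P.Teich => t.Mp (p : (D → ℝ) × ℝ) :=
  (cont_rot T (cont_fst P) P.u).mul (((cont_J P).mul (cont_B t)).mul (cont_J P).inv)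

theorem cont_kap : Continuous fun p : P.Teich => t.kap (p : (D → ℝ) × ℝ) := by
  have h1 : Continuous fun p : P.Teich => tr (t.Mp (p : (D → ℝ) × ℝ)) :=
    (cont_entry (cont_Mp t) 0 0).add (cont_entry (cont_Mp t) 1 1)
  exact (h1.add (Real.continuous_sqrt.comp ((h1.pow 2).sub continuous_const))).div_const 2

theorem find_lt (T : Tri D) (u d : D) [DecidablePred fun j => T.rho^[j] u = d]
    (h : ∃ j, T.rho^[j] u = d) : Nat.find h < Function.minimalPeriod T.rho u := by
  have hinj : Function.Injective T.rho := by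
    intro a b hab
    unfold Tri.rho at hab
    exact T.sg.injective (T.sg.injective (T.io.injective hab))
  have hper : u ∈ Function.periodicPts T.rho := Function.Injective.mem_periodicPts hinj u
  have hpos := Function.minimalPeriod_pos_of_mem_periodicPts hper
  obtain ⟨j, hj⟩ := h
  refine lt_of_le_of_lt (Nat.find_min' _ ?_) (Nat.mod_lt j hpos)
  rw [Function.iterate_mod_minimalPeriod_eq]
  exact hj

theorem C_twc_of (hJ : C_J) (he : C_eig) (hl : C_la) : C_twc := by
  intro D _ _ T P t
  have hx : ∀ e : D, Continuous fun p : P.Teich => (p : (D → ℝ) × ℝ).1 e := fun e =>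
    (continuous_apply e).comp (cont_fst P)
  -- xiu
  have hxiu : Continuous fun p : P.Teich => t.xiu (p : (D → ℝ) × ℝ) := by
    refine (cont_entry (cont_Mp t) 0 1).div ?_ fun p => (he T P t p p.2).2.2.1
    refine (cont_entry (cont_Mp t) 0 0).sub ((cont_kap t).inv₀ fun p => ?_)
    exact (lt_trans one_pos (he T P t p p.2).2.1).ne'
  -- the matrix of the passage
  have hRJ : Continuous fun p : P.Teich =>
      Portal.rot (T := T) (p : (D → ℝ) × ℝ).1 P.u * P.J (p : (D → ℝ) × ℝ) :=
    (cont_rot T (cont_fst P) P.u).mul (cont_J P)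
  have hRJ0 : ∀ p : P.Teich,
      (Portal.rot (T := T) (p : (D → ℝ) × ℝ).1 P.u * P.J (p : (D → ℝ) × ℝ)).1 0 0 ≠ 0 := by
    intro p
    have h5 := (hJ T P p p.2).2.2.2.2 1
    simp only [zpow_one] at h5
    rw [h5]
    simp only [Matrix.of_apply, Matrix.cons_val', Matrix.cons_val_zero, Matrix.cons_val_fin_one]
    exact (exp_pos _).ne'
  have hden : ∀ p : P.Teich,
      0 < (Portal.rot (T := T) (p : (D → ℝ) × ℝ).1 P.u * P.J (p : (D → ℝ) × ℝ)).1 0 0 +
      (Portal.rot (T := T) (p : (D → ℝ) × ℝ).1 P.u * P.J (p : (D → ℝ) × ℝ)).1 1 0 *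
        t.xiu (p : (D → ℝ) × ℝ) := fun p =>
    (he T P t p p.2).2.2.2.2.2.2.2.2.2.2.2.2.2.2.1
  have hdc : Continuous fun p : P.Teich =>
      (Portal.rot (T := T) (p : (D → ℝ) × ℝ).1 P.u * P.J (p : (D → ℝ) × ℝ)).1 0 0 +
      (Portal.rot (T := T) (p : (D → ℝ) × ℝ).1 P.u * P.J (p : (D → ℝ) × ℝ)).1 1 0 *
        t.xiu (p : (D → ℝ) × ℝ) :=
    (cont_entry hRJ 0 0).add ((cont_entry hRJ 1 0).mul hxiu)
  have hxiv : Continuous fun p : P.Teich => t.xiv (p : (D → ℝ) × ℝ) :=
    hxiu.div ((cont_entry hRJ 0 0).mul hdc) fun p => mul_ne_zero (hRJ0 p) (hden p).ne'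
  have hom : Continuous fun p : P.Teich => t.om (p : (D → ℝ) × ℝ) :=
    (cont_kap t).div hdc fun p => (hden p).ne'
  -- xi
  have hxi : ∀ d, Continuous fun p : P.Teich => t.xi (p : (D → ℝ) × ℝ) d := by
    intro d
    unfold PTD.xi
    by_cases h1 : ∃ j, T.rho^[j] P.u = d
    · simp only [dif_pos h1]
      have hc := cont_hol T (cont_fst P) (List.replicate (Nat.find h1) false) P.u
      refine hxiu.div ((cont_entry hc 0 0).mul
        ((cont_entry hc 0 0).add ((cont_entry hc 1 0).mul hxiu))) fun p => ?_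
      refine mul_ne_zero ?_ ?_
      · exact ((hJ T P p p.2).1 P.u (Nat.find h1)).2.1.ne'
      · exact ((he T P t p p.2).2.2.2.2.2.2.2.2.2.2.2.2.2.2.2.1 _ (find_lt T P.u d h1)).ne'
    · simp only [dif_neg h1]
      by_cases h2 : ∃ j, T.rho^[j] P.v = d
      · simp only [dif_pos h2]
        have hc := cont_hol T (cont_fst P) (List.replicate (Nat.find h2) false) P.v
        refine hxiv.div ((cont_entry hc 0 0).mul
          ((cont_entry hc 0 0).add ((cont_entry hc 1 0).mul hxiv))) fun p => ?_
        refine mul_ne_zero ?_ ?_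
        · exact ((hJ T P p p.2).1 P.v (Nat.find h2)).2.1.ne'
        · exact ((he T P t p p.2).2.2.2.2.2.2.2.2.2.2.2.2.2.2.2.2 _ (find_lt T P.v d h2)).ne'
      · simp only [dif_neg h2]
        exact continuous_const
  have hla : ∀ d, Continuous fun p : P.Teich => t.la (p : (D → ℝ) × ℝ) d := by
    intro d
    have hH := cont_H t d
    have h0 : Continuous fun p : P.Teich => t.h0 (p : (D → ℝ) × ℝ) d :=
      ((cont_entry hH 0 0).mul (continuous_const.add (hxi _))).add
        ((cont_entry hH 0 1).mul (hxi _))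
    have h1 : Continuous fun p : P.Teich => t.h1 (p : (D → ℝ) × ℝ) d :=
      ((cont_entry hH 1 0).mul (continuous_const.add (hxi _))).add
        ((cont_entry hH 1 1).mul (hxi _))
    exact h0.add ((hxi d).mul h1)
  have hLam : ∀ d, Continuous fun p : P.Teich => t.Lam (p : (D → ℝ) × ℝ) d := fun d =>
    (hla d).log fun p => (hl T P t p p.2 d).ne'
  have hal : ∀ d, Continuous fun p : P.Teich => t.al (p : (D → ℝ) × ℝ) d := fun d =>
    ((hLam _).add (hLam _)).sub (hLam _)
  have htw1 : ∀ d, Continuous fun p : P.Teich => t.tw1 (p : (D → ℝ) × ℝ) d := by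
    intro d
    refine (((hx d).add (hal _)).sub (hal _)).sub (continuous_const.mul
      ((continuous_const.add (hxi _)).log fun p => ?_))
    have h8 := (he T P t p p.2).2.2.2.2.2.1 (T.sg d)
    have h9 : 0 < 1 + t.xi (p : (D → ℝ) × ℝ) (T.sg d) := by linarith
    exact h9.ne'
  refine Continuous.prodMk ?_ ?_
  · refine continuous_pi fun d => ?_
    by_cases h1 : d = T.io P.u
    · simp only [if_pos h1]; exact htw1 _
    · by_cases h2 : d = T.io P.v
      · simp only [if_neg h1, if_pos h2]; exact htw1 _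
      · simp only [if_neg h1, if_neg h2]; exact htw1 _
  · exact ((hal _).sub (hal _)).sub (continuous_const.mul
      (hom.log fun p => (he T P t p p.2).2.2.2.2.2.2.2.2.1.ne'))

end Run7.h99.DG
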